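import Pool.Agent.Helper17.IA.StV

/-! Project IA, module VAN -/

set_option autoImplicit false

namespace Pool.Agent.Helper2.IA

open Finset Pool.Agent.Helper93.IA Pool.Agent.Helper17.IA

/-- module VAN -/
theorem hVAN : StVAN := by
  intro s m hm hms
  have hs : 0 ≤ s := by linarith
  obtain ⟨a, ha⟩ : ∃ a : ℝ, a = s ^ ((1 : ℝ) / 3) := ⟨_, rfl⟩
  obtain ⟨b, hb⟩ : ∃ b : ℝ, b = m ^ ((1 : ℝ) / 3) := ⟨_, rfl⟩
  have ha0 : 0 ≤ a := by rw [ha]; exact Real.rpow_nonneg hs _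
  have hb0 : 0 ≤ b := by rw [hb]; exact Real.rpow_nonneg hm _
  have key : ∀ z : ℝ, 0 ≤ z → (z ^ ((1 : ℝ) / 3)) ^ 3 = z ∧ (z ^ ((1 : ℝ) / 3)) ^ 2 = z ^ ((2 : ℝ) / 3) := by
    intro z hz
    constructor
    · rw [← Real.rpow_natCast, ← Real.rpow_mul hz]
      norm_num
    · rw [← Real.rpow_natCast, ← Real.rpow_mul hz]
      norm_num
  obtain ⟨ha3, ha2⟩ := key s hs
  obtain ⟨hb3, hb2⟩ := key m hm
  rw [← ha] at ha3 ha2
  rw [← hb] at hb3 hb2
  rw [← ha2, ← hb2]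
  have hab : 10 * b ≤ a := by
    by_contra hlt
    push Not at hlt
    have h1 : a ^ 3 < (10 * b) ^ 3 := pow_lt_pow_left₀ hlt ha0 (by norm_num)
    rw [ha3, mul_pow, hb3] at h1
    linarith
  rcases eq_or_lt_of_le ha0 with h0 | hpos
  · have hb00 : b = 0 := by
      apply le_antisymm _ hb0
      linarith
    have hm0 : m = 0 := by rw [← hb3, hb00]; norm_num
    rw [hm0, hb00]
    simp
  · rw [← ha3, ← hb3, div_le_div_iff₀ (by positivity) (by norm_num)]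
    have h2 : 0 ≤ a ^ 2 * b ^ 2 := by positivity
    nlinarith [mul_le_mul_of_nonneg_left hab h2]

end Pool.Agent.Helper2.IA
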